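import Pool.Agent.KS6_65.TF.TypedGadgets

/-! Characterization of the arrowing implications between tuples of cliques. -/

set_option autoImplicit false

namespace Pool.Agent.KS6_65.TF

open Finset

/-- `G → (K_{a u})_{u ∈ R}`: every colouring of the pairs of vertices with the colour set `R` has,
for some colour `u`, a set of `a u` pairwise adjacent vertices all whose pairs have colour `u`. -/
def ArrowsT {n : ℕ} (G : SimpleGraph (Fin n)) {R : Type} (a : R → ℕ) : Prop :=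
  ∀ χ : Sym2 (Fin n) → R, ∃ u, MonoClique G χ u (a u)

/-- `K_m → (K_{a u})_{u ∈ S}`. -/
def CliqueArrows (m : ℕ) {R : Type} (S : Set R) (a : R → ℕ) : Prop :=
  ∀ χ : Sym2 (Fin m) → R, (∀ x y, x ≠ y → χ s(x, y) ∈ S) →
    ∃ u ∈ S, MonoClique (⊤ : SimpleGraph (Fin m)) χ u (a u)

/-- The easy direction: merging colours. -/
theorem easy {R Q : Type} (a : R → ℕ) (b : Q → ℕ) (c : R → Q)
    (hc : ∀ j, CliqueArrows (b j) {u | c u = j} a) {n : ℕ} (G : SimpleGraph (Fin n))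
    (hG : ArrowsT G b) : ArrowsT G a := by
  classical
  intro χ
  obtain ⟨j, s, hs, hcl⟩ := hG fun z => c (χ z)
  obtain ⟨e⟩ : Nonempty (Fin (b j) ≃ s) := ⟨(Fintype.equivFinOfCardEq (by simpa using hs)).symm⟩
  obtain ⟨u, hu, t, ht, htc⟩ := hc j (fun z => χ (z.map fun x => (e x : Fin n))) (by
    intro x y hxy
    have hne : (e x : Fin n) ≠ e y := fun h => hxy (e.injective (Subtype.ext h))
    exact (hcl _ (e x).2 _ (e y).2 hne).2)
  refine ⟨u, t.image fun x => (e x : Fin n), ?_, ?_⟩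
  · rw [card_image_of_injective _ fun x y h => e.injective (Subtype.ext h), ht]
  · intro x hx y hy hxy
    rw [mem_image] at hx hy
    obtain ⟨x, hx, rfl⟩ := hx
    obtain ⟨y, hy, rfl⟩ := hy
    have hne : x ≠ y := fun h => hxy (by rw [h])
    exact ⟨(hcl _ (e x).2 _ (e y).2 hxy).1, (htc x hx y hy hne).2⟩

/-- The hard direction. -/
theorem hard {R Q : Type} [Finite R] [Nonempty R] [Finite Q] [Nonempty Q] (a : R → ℕ) (b : Q → ℕ)
    (ha : ∀ u, 2 ≤ a u) (hb : ∀ j, 2 ≤ b j)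
    (hc : ∀ c : R → Q, ∃ j, ¬ CliqueArrows (b j) {u | c u = j} a) :
    ∃ (n : ℕ) (G : SimpleGraph (Fin n)), ¬ ArrowsT G a ∧ ArrowsT G b := by
  classical
  let T : Type := {u : R // 3 ≤ a u}
  let ext : (T → Q) → R → Q := fun c u => if h : 3 ≤ a u then c ⟨u, h⟩ else Classical.arbitrary Q
  have hext : ∀ (c : T → Q) (u : T), ext c u.1 = c u := fun c u => by
    simp only [ext]
    rw [dif_pos u.2]
  have h1 : ∀ c : T → Q, ∃ (j : Q) (χ : Sym2 (Fin (b j)) → R),
      (∀ x y, x ≠ y → ext c (χ s(x, y)) = j) ∧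
      ∀ u, ext c u = j → ¬ MonoClique (⊤ : SimpleGraph (Fin (b j))) χ u (a u) := by
    intro c
    obtain ⟨j, hj⟩ := hc (ext c)
    unfold CliqueArrows at hj
    push Not at hj
    obtain ⟨χ, h2, h3⟩ := hj
    exact ⟨j, χ, h2, h3⟩
  choose J χ hχ1 hχ2 using h1
  -- the colours used have `3 ≤ a u`
  have hχ3 : ∀ c x y, x ≠ y → 3 ≤ a (χ c s(x, y)) := by
    intro c x y hxy
    by_contra hlt
    have h2 : a (χ c s(x, y)) = 2 := by have := ha (χ c s(x, y)); omega
    refine hχ2 c _ (hχ1 c x y hxy) ⟨{x, y}, by rw [h2]; exact card_pair hxy, ?_⟩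
    intro x' hx' y' hy' hne
    simp only [mem_insert, mem_singleton] at hx' hy'
    refine ⟨hne, ?_⟩
    rcases hx' with rfl | rfl <;> rcases hy' with rfl | rfl
    · exact absurd rfl hne
    · rfl
    · rw [Sym2.eq_swap]
    · exact absurd rfl hne
  let V : Type := Σ c : T → Q, Fin (b (J c))
  let A : T → SimpleGraph V := fun u =>
    { Adj := fun p q => ∃ (c : T → Q) (x y : Fin (b (J c))), p = ⟨c, x⟩ ∧ q = ⟨c, y⟩ ∧ x ≠ y ∧
        χ c s(x, y) = u.1
      symm := ⟨by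
        rintro p q ⟨c, x, y, hp, hq, hxy, hu⟩
        exact ⟨c, y, x, hq, hp, hxy.symm, by rw [Sym2.eq_swap]; exact hu⟩⟩
      loopless := ⟨by
        rintro p ⟨c, x, y, rfl, hq, hxy, hu⟩
        exact hxy (eq_of_heq (Sigma.mk.inj_iff.1 hq).2)⟩ }
  have hA : ∀ u v x y, (A u).Adj x y → (A v).Adj x y → u = v := by
    rintro u v p q ⟨c, x, y, rfl, rfl, hxy, hu⟩ ⟨c', x', y', hp, hq, hxy', hv⟩
    obtain ⟨rfl, hx⟩ := Sigma.mk.inj_iff.1 hp
    obtain ⟨-, hy⟩ := Sigma.mk.inj_iff.1 hq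
    obtain rfl := eq_of_heq hx
    obtain rfl := eq_of_heq hy
    exact Subtype.ext (hu.symm.trans hv)
  have hfree : ∀ u : T, (A u).CliqueFree ((a u.1 - 1) + 1) := by
    intro u s hs
    have hcard : s.card = a u.1 := by
      rw [hs.card_eq]; have := u.2; omega
    have hcl := hs.isClique
    obtain ⟨p, hp⟩ : s.Nonempty := by rw [← card_pos]; have := u.2; omega
    obtain ⟨c, x₀⟩ := p
    have hall : ∀ q ∈ s, ∃ y, q = (⟨c, y⟩ : V) := by
      intro q hq
      by_cases hqp : (⟨c, x₀⟩ : V) = q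
      · exact ⟨x₀, hqp.symm⟩
      · obtain ⟨c', x, y, h1, h2, -, -⟩ := hcl hp hq hqp
        obtain ⟨rfl, -⟩ := Sigma.mk.inj_iff.1 h1
        exact ⟨y, h2⟩
    set t : Finset (Fin (b (J c))) := univ.filter fun y => (⟨c, y⟩ : V) ∈ s with ht
    have hts : t.image (fun y => (⟨c, y⟩ : V)) = s := by
      ext q
      simp only [mem_image, ht, mem_filter, mem_univ, true_and]
      constructor
      · rintro ⟨y, hy, rfl⟩; exact hy
      · intro hq
        obtain ⟨y, rfl⟩ := hall q hq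
        exact ⟨y, hq, rfl⟩
    have htc : t.card = a u.1 := by
      rw [← hcard, ← hts, card_image_of_injective]
      intro y y' h
      exact eq_of_heq (Sigma.mk.inj_iff.1 h).2
    have hmono : ∀ x ∈ t, ∀ y ∈ t, x ≠ y → χ c s(x, y) = u.1 := by
      intro x hx y hy hxy
      simp only [ht, mem_filter, mem_univ, true_and] at hx hy
      obtain ⟨c', x', y', h1, h2, -, h3⟩ := hcl hx hy (by
        intro h; exact hxy (eq_of_heq (Sigma.mk.inj_iff.1 h).2))
      obtain ⟨rfl, h4⟩ := Sigma.mk.inj_iff.1 h1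
      obtain ⟨-, h5⟩ := Sigma.mk.inj_iff.1 h2
      obtain rfl := eq_of_heq h4
      obtain rfl := eq_of_heq h5
      exact h3
    obtain ⟨x, hx, y, hy, hxy⟩ := one_lt_card.1 (show 1 < t.card by rw [htc]; have := u.2; omega)
    refine hχ2 c u.1 ?_ ⟨t, htc, fun x hx y hy hxy => ⟨hxy, hmono x hx y hy hxy⟩⟩
    rw [← hmono x hx y hy hxy]
    exact hχ1 c x y hxy
  have hVfin : Finite V := by
    have : Finite (T → Q) := inferInstance
    infer_instance
  obtain ⟨n, Γ, hd, hcf, harr⟩ := typedFolkman (fun u : T => a u.1 - 1)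
    (fun u => by have := u.2; omega) Q V A hA hfree
  have hTne : Nonempty T := by
    let c₀ : T → Q := fun _ => Classical.arbitrary Q
    have hb0 := hb (J c₀)
    have := hχ3 c₀ ⟨0, by omega⟩ ⟨1, by omega⟩ (by simp)
    exact ⟨⟨_, this⟩⟩
  refine ⟨n, unionGraph Γ, ?_, ?_⟩
  · obtain ⟨χ₀, hχ₀⟩ := exists_type_colouring Γ hd
    intro h
    obtain ⟨u, s, hs, hcl⟩ := h fun z => (χ₀ z).1
    obtain ⟨x, hx, y, hy, hxy⟩ := one_lt_card.1 (show 1 < s.card by rw [hs]; have := ha u; omega)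
    have hu : 3 ≤ a u := by
      rw [← (hcl x hx y hy hxy).2]
      exact (χ₀ s(x, y)).2
    refine hcf ⟨u, hu⟩ s ⟨?_, by simp only; omega⟩
    intro x hx y hy hxy
    obtain ⟨⟨v, hv⟩, hc⟩ := hcl x hx y hy hxy
    simp only at hc
    rw [hχ₀ v x y hv] at hc
    have : v = ⟨u, hu⟩ := Subtype.ext hc
    rw [← this]
    exact hv
  · intro ψ
    obtain ⟨e, c, he⟩ := harr ψ
    have key : ∀ x y : Fin (b (J c)), x ≠ y → (unionGraph Γ).Adj (e ⟨c, x⟩) (e ⟨c, y⟩) ∧
        ψ s(e ⟨c, x⟩, e ⟨c, y⟩) = J c := by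
      intro x y hxy
      have h3 := hχ3 c x y hxy
      obtain ⟨h4, h5⟩ := he ⟨c, x⟩ ⟨c, y⟩ ⟨χ c s(x, y), h3⟩ ⟨c, x, y, rfl, rfl, hxy, rfl⟩
      refine ⟨⟨_, h4⟩, ?_⟩
      rw [h5, ← hext c ⟨χ c s(x, y), h3⟩]
      exact hχ1 c x y hxy
    refine ⟨J c, univ.image fun x => e ⟨c, x⟩, ?_, ?_⟩
    · rw [card_image_of_injective, card_univ, Fintype.card_fin]
      intro x y hxy
      by_contra hne
      exact (key x y hne).1.ne hxy
    · intro p hp q hq hpq
      rw [mem_image] at hp hq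
      obtain ⟨x, -, rfl⟩ := hp
      obtain ⟨y, -, rfl⟩ := hq
      exact key x y fun h => hpq (by rw [h])

end Pool.Agent.KS6_65.TF
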