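import Pool.Agent.KS6_65.TF.Char

/-! Three colours. -/

set_option autoImplicit false

namespace Pool.Agent.KS6_65.TF

open Finset

lemma monoClique_two {V κ : Type} {G : SimpleGraph V} {χ : Sym2 V → κ} {i : κ} {a : ℕ}
    (h : MonoClique G χ i a) (ha : 2 ≤ a) : ∃ x y, x ≠ y ∧ χ s(x, y) = i := by
  obtain ⟨s, hs, hcl⟩ := h
  obtain ⟨x, hx, y, hy, hxy⟩ := one_lt_card.1 (show 1 < s.card by omega)
  exact ⟨x, y, hxy, (hcl x hx y hy hxy).2⟩

lemma monoClique_le {m : ℕ} {κ : Type} {G : SimpleGraph (Fin m)} {χ : Sym2 (Fin m) → κ} {i : κ}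
    {a : ℕ} (h : MonoClique G χ i a) : a ≤ m := by
  obtain ⟨s, hs, -⟩ := h
  rw [← hs]
  simpa using card_le_univ s

lemma bad_const {m : ℕ} {R : Type} {S : Set R} {a : R → ℕ} (ha : ∀ u, 2 ≤ a u) {u : R} (hu : u ∈ S)
    (h : m < a u) : ¬ CliqueArrows m S a := by
  intro hA
  obtain ⟨v, -, hv⟩ := hA (fun _ => u) (fun _ _ _ => hu)
  obtain ⟨x, y, -, hxy⟩ := monoClique_two hv (ha v)
  have hxy' : u = v := hxy
  rw [← hxy'] at hv
  have := monoClique_le hv
  omega

lemma bad_edge {m : ℕ} {R : Type} {S : Set R} {a : R → ℕ} (ha : ∀ u, 2 ≤ a u) {u v : R}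
    (hu : u ∈ S) (hv : v ∈ S) (huv : u ≠ v) (hm : 3 ≤ m) (h1 : m ≤ a u) (h2 : 3 ≤ a v) :
    ¬ CliqueArrows m S a := by
  classical
  intro hA
  let x₀ : Fin m := ⟨0, by omega⟩
  let y₀ : Fin m := ⟨1, by omega⟩
  have hx₀ : x₀ ≠ y₀ := by simp [x₀, y₀]
  obtain ⟨w, -, hw⟩ := hA (fun z => if z = s(x₀, y₀) then v else u) (fun x y _ => by
    split_ifs
    · exact hv
    · exact hu)
  obtain ⟨x, y, -, hxy⟩ := monoClique_two hw (ha w)
  have hw2 : w = u ∨ w = v := by
    split_ifs at hxy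
    · exact Or.inr hxy.symm
    · exact Or.inl hxy.symm
  obtain ⟨s, hs, hcl⟩ := hw
  rcases hw2 with rfl | rfl
  · have huniv : s = univ := by
      apply eq_univ_of_card
      have : s.card ≤ Fintype.card (Fin m) := card_le_univ s
      rw [Fintype.card_fin] at this ⊢
      omega
    have := (hcl x₀ (by rw [huniv]; simp) y₀ (by rw [huniv]; simp) hx₀).2
    simp only [if_true] at this
    exact huv this.symm
  · obtain ⟨p, hp, q, hq, r, hr, hpq, hpr, hqr⟩ := two_lt_card.1 (show 2 < s.card by omega)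
    have e1 := (hcl p hp q hq hpq).2
    have e2 := (hcl p hp r hr hpr).2
    simp only at e1 e2
    have f1 : s(p, q) = s(x₀, y₀) := by
      by_contra h
      rw [if_neg h] at e1
      exact huv e1
    have f2 : s(p, r) = s(x₀, y₀) := by
      by_contra h
      rw [if_neg h] at e2
      exact huv e2
    have f3 := f1.trans f2.symm
    rw [Sym2.eq_iff] at f3
    rcases f3 with ⟨-, h⟩ | ⟨h, -⟩
    · exact hqr h
    · exact hpr h

lemma bad_lift {m k : ℕ} {R : Type} {S : Set R} {a : R → ℕ} (ha : ∀ u, 2 ≤ a u) {u v : R}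
    (hu : u ∈ S) (hv : v ∈ S) (huv : u ≠ v) (h1 : a u = k) (h2 : a v = k)
    (h : ¬ ArrowsT (⊤ : SimpleGraph (Fin m)) ![k, k]) : ¬ CliqueArrows m S a := by
  intro hA
  apply h
  intro χ
  obtain ⟨w, -, hw⟩ := hA (fun z => if χ z = 0 then u else v) (fun x y _ => by
    split_ifs
    · exact hu
    · exact hv)
  obtain ⟨x, y, -, hxy⟩ := monoClique_two hw (ha w)
  have hw2 : w = u ∨ w = v := by
    split_ifs at hxy
    · exact Or.inl hxy.symm
    · exact Or.inr hxy.symm
  obtain ⟨s, hs, hcl⟩ := hw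
  rcases hw2 with rfl | rfl
  · refine ⟨0, s, by simpa [h1] using hs, fun x hx y hy hxy => ⟨hxy, ?_⟩⟩
    have := (hcl x hx y hy hxy).2
    simp only at this
    by_contra h0
    rw [if_neg h0] at this
    exact huv this.symm
  · refine ⟨1, s, by simpa [h2] using hs, fun x hx y hy hxy => ⟨hxy, ?_⟩⟩
    have := (hcl x hx y hy hxy).2
    simp only at this
    have h0 : χ s(x, y) ≠ 0 := by
      intro h0
      rw [if_pos h0] at this
      exact huv this
    have h3 : ∀ i : Fin 2, i ≠ 0 → i = 1 := by decide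
    exact h3 _ h0

/-- The sharp form with three colours. -/
theorem three {k l s : ℕ} (hk : 3 ≤ k) (hl : 2 ≤ l) (hlk : l ≤ k) (hs : 2 ≤ s) :
    (∃ (n : ℕ) (G : SimpleGraph (Fin n)), ¬ ArrowsT G ![k, k, l] ∧ ArrowsT G ![s, k - 1, l]) ↔
      ¬ ArrowsT (⊤ : SimpleGraph (Fin s)) ![k, k] := by
  classical
  have ha : ∀ u, 2 ≤ (![k, k, l] : Fin 3 → ℕ) u := by
    intro u
    fin_cases u
    · show 2 ≤ k; omega
    · show 2 ≤ k; omega
    · exact hl
  have hb : ∀ u, 2 ≤ (![s, k - 1, l] : Fin 3 → ℕ) u := by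
    intro u
    fin_cases u
    · exact hs
    · show 2 ≤ k - 1; omega
    · exact hl
  constructor
  · rintro ⟨n, G, h1, h2⟩ h
    apply h1
    refine easy _ _ (![0, 0, 2] : Fin 3 → Fin 3) ?_ G h2
    intro j
    fin_cases j
    · show CliqueArrows s {u | (![0, 0, 2] : Fin 3 → Fin 3) u = 0} ![k, k, l]
      intro χ hχ
      obtain ⟨i, t, ht, hcl⟩ := h fun z => if χ z = 0 then 0 else 1
      have hval : ∀ x y, x ≠ y → χ s(x, y) = 0 ∨ χ s(x, y) = 1 := by
        intro x y hxy
        have h3 := hχ x y hxy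
        have h4 : ∀ u : Fin 3, (![0, 0, 2] : Fin 3 → Fin 3) u = 0 → u = 0 ∨ u = 1 := by decide
        exact h4 _ h3
      have hi : ∀ i : Fin 2, i = 0 ∨ i = 1 := by decide
      rcases hi i with rfl | rfl
      · refine ⟨0, rfl, t, ht, fun x hx y hy hxy => ⟨hxy, ?_⟩⟩
        have := (hcl x hx y hy hxy).2
        simp only at this
        by_contra h0
        rw [if_neg h0] at this
        exact absurd this (by decide)
      · refine ⟨1, rfl, t, ht, fun x hx y hy hxy => ⟨hxy, ?_⟩⟩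
        have := (hcl x hx y hy hxy).2
        simp only at this
        rcases hval x y hxy with h0 | h0
        · rw [if_pos h0] at this
          exact absurd this (by decide)
        · exact h0
    · show CliqueArrows (k - 1) {u | (![0, 0, 2] : Fin 3 → Fin 3) u = 1} ![k, k, l]
      intro χ hχ
      have h3 := hχ ⟨0, by omega⟩ ⟨1, by omega⟩ (by simp)
      have h4 : ∀ u : Fin 3, (![0, 0, 2] : Fin 3 → Fin 3) u ≠ 1 := by decide
      exact absurd h3 (h4 _)
    · show CliqueArrows l {u | (![0, 0, 2] : Fin 3 → Fin 3) u = 2} ![k, k, l]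
      intro χ hχ
      refine ⟨2, rfl, univ, by simp, fun x _ y _ hxy => ⟨hxy, ?_⟩⟩
      have h3 := hχ x y hxy
      have h4 : ∀ u : Fin 3, (![0, 0, 2] : Fin 3 → Fin 3) u = 2 → u = 2 := by decide
      exact h4 _ h3
  · intro h
    apply hard _ _ ha hb
    intro c
    have e0 : (![k, k, l] : Fin 3 → ℕ) 0 = k := rfl
    have e1 : (![k, k, l] : Fin 3 → ℕ) 1 = k := rfl
    have e2 : (![k, k, l] : Fin 3 → ℕ) 2 = l := rfl
    have h3 : ∀ i : Fin 3, i = 0 ∨ i = 1 ∨ i = 2 := by decide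
    -- colour 0 or 1 mapped to 1
    by_cases c01 : c 0 = 1
    · exact ⟨1, bad_const ha (u := 0) c01 (by rw [e0]; show k - 1 < k; omega)⟩
    by_cases c11 : c 1 = 1
    · exact ⟨1, bad_const ha (u := 1) c11 (by rw [e1]; show k - 1 < k; omega)⟩
    rcases h3 (c 0) with c0 | c0 | c0
    · rcases h3 (c 1) with c1 | c1 | c1
      · exact ⟨0, bad_lift ha (u := 0) (v := 1) c0 c1 (by decide) e0 e1 h⟩
      · exact absurd c1 c11
      · rcases hlk.lt_or_eq with hlt | rfl
        · exact ⟨2, bad_const ha (u := 1) c1 (by rw [e1]; exact hlt)⟩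
        · rcases h3 (c 2) with c2 | c2 | c2
          · exact ⟨0, bad_lift ha (u := 0) (v := 2) c0 c2 (by decide) e0 e2 h⟩
          · exact ⟨1, bad_const ha (u := 2) c2 (by rw [e2]; show l - 1 < l; omega)⟩
          · exact ⟨2, bad_edge ha (u := 1) (v := 2) c1 c2 (by decide) hk (by rw [e1]; exact le_rfl)
              (by rw [e2]; exact hk)⟩
    · exact absurd c0 c01
    · rcases h3 (c 1) with c1 | c1 | c1
      · rcases hlk.lt_or_eq with hlt | rfl
        · exact ⟨2, bad_const ha (u := 0) c0 (by rw [e0]; exact hlt)⟩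
        · rcases h3 (c 2) with c2 | c2 | c2
          · exact ⟨0, bad_lift ha (u := 1) (v := 2) c1 c2 (by decide) e1 e2 h⟩
          · exact ⟨1, bad_const ha (u := 2) c2 (by rw [e2]; show l - 1 < l; omega)⟩
          · exact ⟨2, bad_edge ha (u := 0) (v := 2) c0 c2 (by decide) hk (by rw [e0]; exact le_rfl)
              (by rw [e2]; exact hk)⟩
      · exact absurd c1 c11
      · rcases hlk.lt_or_eq with hlt | rfl
        · exact ⟨2, bad_const ha (u := 0) c0 (by rw [e0]; exact hlt)⟩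
        · exact ⟨2, bad_edge ha (u := 0) (v := 1) c0 c1 (by decide) hk (by rw [e0]; exact le_rfl)
            (by rw [e1]; exact hk)⟩

lemma not_arrows_succ {k : ℕ} (hk : 3 ≤ k) :
    ¬ ArrowsT (⊤ : SimpleGraph (Fin (k + 1))) ![k, k] := by
  classical
  intro h
  let f : Fin (k + 1) → Fin (k + 1) → Fin 2 := fun x y => if sp x y then 1 else 0
  have hf : ∀ x y, f x y = f y x := fun x y => by simp only [f, sp_symm x y]
  obtain ⟨i, s, hs, hcl⟩ := h (Sym2.lift ⟨f, hf⟩)
  have hi : ∀ i : Fin 2, i = 0 ∨ i = 1 := by decide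
  rcases hi i with rfl | rfl
  · have hs' : s.card = k := hs
    obtain ⟨x, hx, y, hy, hxy, hsp⟩ := exists_sp hk s hs'
    have := (hcl x hx y hy hxy).2
    simp only [Sym2.lift_mk, f, hsp, if_true] at this
    exact absurd this (by decide)
  · have hs' : s.card = k := hs
    obtain ⟨x, hx, y, hy, hxy, hsp⟩ := exists_not_sp s (by omega)
    have := (hcl x hx y hy hxy).2
    simp only [Sym2.lift_mk, f, hsp] at this
    exact absurd this (by decide)

end Pool.Agent.KS6_65.TF
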