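import Mathlib

/-!
# The Nešetřil–Rödl theorem for edge-coloured graphs without monochromatic cliques

A typed system has disjoint graphs `Γ u`, one for every type `u`, on the same vertices.
We prove: for every typed structure `A` whose graph of type `u` has no clique on `k u + 1` vertices
(`k u ≥ 2`) there is a typed structure with the same property such that every colouring of the
pairs has a copy of `A` in which the colour of an edge depends only on its type. The proof is the
partite construction with the Hales–Jewett theorem of Mathlib as the partite lemma.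
-/

set_option autoImplicit false

open Combinatorics

namespace Pool.Agent.KS6_65.TF

/-- A typed system with `N` parts. -/
structure Sys (T : Type) (N : ℕ) where
  X : Type
  fin : Finite X
  Γ : T → SimpleGraph X
  π : X → Fin N
  part : ∀ u x y, (Γ u).Adj x y → π x ≠ π y
  disj : ∀ u v x y, (Γ u).Adj x y → (Γ v).Adj x y → u = v

/-- A part-preserving homomorphism of typed systems. -/
structure Emb {T : Type} {N : ℕ} (P Q : Sys T N) where
  f : P.X → Q.X
  adj : ∀ u x y, (P.Γ u).Adj x y → (Q.Γ u).Adj (f x) (f y)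
  part : ∀ x, Q.π (f x) = P.π x

section Step

variable {T : Type} {N : ℕ} (P : Sys T N) (a b : Fin N) (t₀ : T)

/-- Edges of type `t₀` between part `a` and part `b`. -/
abbrev E : Type := {e : P.X × P.X // P.π e.1 = a ∧ P.π e.2 = b ∧ (P.Γ t₀).Adj e.1 e.2}

variable {P a b t₀} {ι : Type}

open Classical in
/-- The copy of `P` belonging to the line `l`. -/
noncomputable def F (l : Line (E P a b t₀) ι) (x : P.X) :
    Option (Line (E P a b t₀) ι) × (ι → P.X) :=
  if P.π x = a then (none, fun t => (l.idxFun t).elim x (fun e => e.1.1))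
  else if P.π x = b then (none, fun t => (l.idxFun t).elim x (fun e => e.1.2))
  else (some l, fun _ => x)

lemma F_a (l : Line (E P a b t₀) ι) {x : P.X} (h : P.π x = a) :
    F l x = (none, fun t => (l.idxFun t).elim x (fun e => e.1.1)) := by
  simp [F, h]

lemma F_b (hab : a ≠ b) (l : Line (E P a b t₀) ι) {x : P.X} (h : P.π x = b) :
    F l x = (none, fun t => (l.idxFun t).elim x (fun e => e.1.2)) := by
  have : P.π x ≠ a := by rw [h]; exact hab.symm
  simp [F, h, hab.symm]

lemma F_z (l : Line (E P a b t₀) ι) {x : P.X} (h : P.π x ≠ a) (h' : P.π x ≠ b) :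
    F l x = (some l, fun _ => x) := by
  simp [F, h, h']

lemma π_F (hab : a ≠ b) (l : Line (E P a b t₀) ι) (x : P.X) (t : ι) :
    P.π ((F l x).2 t) = P.π x := by
  by_cases h : P.π x = a
  · rw [F_a l h]
    cases ht : l.idxFun t with
    | none => simp [ht]
    | some e => simp [ht, h, e.2.1]
  · by_cases h' : P.π x = b
    · rw [F_b hab l h']
      cases ht : l.idxFun t with
      | none => simp [ht]
      | some e => simp [ht, h', e.2.2.1]
    · rw [F_z l h h']

lemma F_at (hab : a ≠ b) (l : Line (E P a b t₀) ι) (x : P.X) {t : ι} (ht : l.idxFun t = none) :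
    (F l x).2 t = x := by
  by_cases h : P.π x = a
  · rw [F_a l h]; simp [ht]
  · by_cases h' : P.π x = b
    · rw [F_b hab l h']; simp [ht]
    · rw [F_z l h h']

lemma F_inj (hab : a ≠ b) (l : Line (E P a b t₀) ι) {x y : P.X} (h : F l x = F l y) : x = y := by
  obtain ⟨t, ht⟩ := l.proper
  rw [← F_at hab l x ht, h, F_at hab l y ht]

lemma F_some (hab : a ≠ b) {l l0 : Line (E P a b t₀) ι} {x : P.X} (h : (F l x).1 = some l0) :
    l = l0 ∧ P.π x ≠ a ∧ P.π x ≠ b := by
  by_cases h1 : P.π x = a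
  · rw [F_a l h1] at h; simp at h
  · by_cases h2 : P.π x = b
    · rw [F_b hab l h2] at h; simp at h
    · rw [F_z l h1 h2] at h
      exact ⟨by simpa using h, h1, h2⟩

lemma F_none {l : Line (E P a b t₀) ι} {x : P.X} (h : (F l x).1 = none) :
    P.π x = a ∨ P.π x = b := by
  by_contra hc
  push Not at hc
  rw [F_z l hc.1 hc.2] at h
  simp at h

/-- The new graphs. -/
def G' (hab : a ≠ b) (u : T) : SimpleGraph (Option (Line (E P a b t₀) ι) × (ι → P.X)) where
  Adj p q := ∃ l x y, (P.Γ u).Adj x y ∧ F l x = p ∧ F l y = q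
  symm := ⟨by
    rintro p q ⟨l, x, y, h, h1, h2⟩
    exact ⟨l, y, x, h.symm, h2, h1⟩⟩
  loopless := ⟨by
    rintro p ⟨l, x, y, h, h1, h2⟩
    have := F_inj hab l (h1.trans h2.symm)
    exact h.ne this⟩

/-- At a coordinate fixed by the line, the projection of an edge between the parts `a` and `b` has
type `t₀`. -/
lemma coord_fixed (hab : a ≠ b) {l : Line (E P a b t₀) ι} {x y : P.X} {u : T}
    (h : (P.Γ u).Adj x y) (hp : (F l x).1 = none) (hq : (F l y).1 = none) {t : ι}
    (ht : l.idxFun t ≠ none) :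
    (P.Γ t₀).Adj ((F l x).2 t) ((F l y).2 t) := by
  have hx := F_none hp
  have hy := F_none hq
  have hne := P.part u x y h
  obtain ⟨e, he⟩ := Option.ne_none_iff_exists'.1 ht
  rcases hx with hx | hx
  · rcases hy with hy | hy
    · exact absurd (hx.trans hy.symm) hne
    · rw [F_a l hx, F_b hab l hy]
      simpa [he] using e.2.2.2
  · rcases hy with hy | hy
    · rw [F_b hab l hx, F_a l hy]
      simpa [he] using e.2.2.2.symm
    · exact absurd (hx.trans hy.symm) hne

/-- An edge of type `t₀` between the parts `a` and `b` projects to edges of type `t₀`. -/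
lemma coord (hab : a ≠ b) {l : Line (E P a b t₀) ι} {x y : P.X}
    (h : (P.Γ t₀).Adj x y) (hp : (F l x).1 = none) (hq : (F l y).1 = none) (t : ι) :
    (P.Γ t₀).Adj ((F l x).2 t) ((F l y).2 t) := by
  by_cases ht : l.idxFun t = none
  · rw [F_at hab l x ht, F_at hab l y ht]
    exact h
  · exact coord_fixed hab h hp hq ht

/-- the copies are induced on the parts `a` and `b` -/
lemma induced (hab : a ≠ b) {l l' : Line (E P a b t₀) ι} {x y x' y' : P.X} {u : T}
    (h : (P.Γ u).Adj x' y') (hx : F l x = F l' x') (hy : F l y = F l' y')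
    (hp : (F l x).1 = none) (hq : (F l y).1 = none) : (P.Γ u).Adj x y := by
  obtain ⟨t, ht⟩ := l.proper
  have hp' : (F l' x').1 = none := by rw [← hx]; exact hp
  have hq' : (F l' y').1 = none := by rw [← hy]; exact hq
  have e1 : x = (F l' x').2 t := by rw [← hx, F_at hab l x ht]
  have e2 : y = (F l' y').2 t := by rw [← hy, F_at hab l y ht]
  by_cases ht' : l'.idxFun t = none
  · rw [F_at hab l' x' ht'] at e1
    rw [F_at hab l' y' ht'] at e2
    rw [e1, e2]
    exact h
  · -- `x y` is an edge of type `t₀`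
    have h0 : (P.Γ t₀).Adj x y := by
      rw [e1, e2]
      exact coord_fixed hab h hp' hq' ht'
    -- so all coordinates are edges of type `t₀`, in particular `x' y'`
    obtain ⟨t', ht'2⟩ := l'.proper
    have h1 := coord hab h0 hp hq t'
    rw [hx, hy, F_at hab l' x' ht'2, F_at hab l' y' ht'2] at h1
    have h2 := P.disj _ _ _ _ h h1
    rw [h2]
    exact h0

lemma G'_disj (hab : a ≠ b) (u v : T) (p q : Option (Line (E P a b t₀) ι) × (ι → P.X))
    (h1 : (G' hab u).Adj p q) (h2 : (G' hab v).Adj p q) : u = v := by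
  obtain ⟨l, x, y, h, hx, hy⟩ := h1
  obtain ⟨l', x', y', h', hx', hy'⟩ := h2
  -- it suffices that `x y` has type `v`
  suffices hs : (P.Γ v).Adj x y from P.disj _ _ _ _ h hs
  by_cases hp : p.1 = none
  · by_cases hq : q.1 = none
    · refine induced hab h' (hx.trans hx'.symm) (hy.trans hy'.symm) ?_ ?_
      · rw [hx]; exact hp
      · rw [hy]; exact hq
    · obtain ⟨l0, hl0⟩ := Option.ne_none_iff_exists'.1 hq
      obtain ⟨rfl, -, -⟩ := F_some hab (show (F l y).1 = some l0 by rw [hy]; exact hl0)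
      obtain ⟨rfl, -, -⟩ := F_some hab (show (F l' y').1 = some l by rw [hy']; exact hl0)
      have e1 := F_inj hab l' (hx.trans hx'.symm)
      have e2 := F_inj hab l' (hy.trans hy'.symm)
      rw [e1, e2]
      exact h'
  · obtain ⟨l0, hl0⟩ := Option.ne_none_iff_exists'.1 hp
    obtain ⟨rfl, -, -⟩ := F_some hab (show (F l x).1 = some l0 by rw [hx]; exact hl0)
    obtain ⟨rfl, -, -⟩ := F_some hab (show (F l' x').1 = some l by rw [hx']; exact hl0)
    have e1 := F_inj hab l' (hx.trans hx'.symm)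
    have e2 := F_inj hab l' (hy.trans hy'.symm)
    rw [e1, e2]
    exact h'

instance finLine [Finite ι] [Finite P.X] : Finite (Line (E P a b t₀) ι) :=
  Finite.of_injective (fun l : Line (E P a b t₀) ι => l.idxFun) (by
    intro l l' h
    ext1
    exact h)

lemma cliqueFree (hab : a ≠ b) (u : T) {n : ℕ} (hn : 2 ≤ n) (hP : (P.Γ u).CliqueFree (n + 1))
    (s0 : ι) : (G' (P := P) (t₀ := t₀) (ι := ι) hab u).CliqueFree (n + 1) := by
  classical
  intro s hs
  have hcl := hs.isClique
  have hcard := hs.card_eq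
  have hother : ∀ p ∈ s, ∃ q ∈ s, q ≠ p := by
    intro p hp
    apply Finset.exists_mem_ne (by omega)
  -- some vertex of `s` is of the form `(some l0, z)`
  have hex : ∃ p ∈ s, ∃ l0, p.1 = some l0 := by
    by_contra hc
    push Not at hc
    have hnone : ∀ p ∈ s, p.1 = none := by
      intro p hp
      cases h : p.1 with
      | none => rfl
      | some l => exact absurd h (hc p hp l)
    have hmaps : ∀ p ∈ s, P.π (p.2 s0) ∈ ({a, b} : Finset (Fin N)) := by
      intro p hp
      obtain ⟨q, hq, hqp⟩ := hother p hp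
      obtain ⟨l, x, y, h, h1, h2⟩ := hcl hp hq hqp.symm
      have h3 : (F l x).1 = none := by rw [h1]; exact hnone p hp
      have h4 := F_none h3
      have h5 := π_F hab l x s0
      rw [h1] at h5
      rw [h5]
      simpa using h4
    have hinj : Set.InjOn (fun p : Option (Line (E P a b t₀) ι) × (ι → P.X) => P.π (p.2 s0)) s := by
      intro p hp q hq hpq
      by_contra hne
      obtain ⟨l, x, y, h, h1, h2⟩ := hcl hp hq hne
      simp only at hpq
      rw [← h1, ← h2, π_F hab, π_F hab] at hpq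
      exact P.part _ _ _ h hpq
    have h1 := Finset.card_le_card_of_injOn _ hmaps hinj
    have h2 : ({a, b} : Finset (Fin N)).card ≤ 2 := Finset.card_le_two
    omega
  obtain ⟨p, hp, l0, hpl⟩ := hex
  obtain ⟨t1, ht1⟩ := l0.proper
  have himg : ∀ q ∈ s, F l0 (q.2 t1) = q := by
    have key : ∀ q, (∃ l x y, (P.Γ u).Adj x y ∧ F l x = p ∧ F l y = q) →
        F l0 (q.2 t1) = q ∧ F l0 (p.2 t1) = p := by
      rintro q ⟨l, x, y, h, h1, h2⟩
      have h3 : (F l x).1 = some l0 := by rw [h1]; exact hpl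
      obtain ⟨rfl, -, -⟩ := F_some hab h3
      constructor
      · rw [← h2, F_at hab l y ht1]
      · rw [← h1, F_at hab l x ht1]
    intro q hq
    by_cases hqp : q = p
    · subst hqp
      obtain ⟨q', hq', hne⟩ := hother q hq
      exact (key q' (hcl hq hq' hne.symm)).2
    · exact (key q (hcl hp hq (Ne.symm hqp))).1
  apply hP (s.image (fun q => q.2 t1))
  have hinj : Set.InjOn (fun q : Option (Line (E P a b t₀) ι) × (ι → P.X) => q.2 t1) s := by
    intro q hq q' hq' h
    have h1 := himg q hq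
    have h2 := himg q' hq'
    simp only at h
    rw [← h1, ← h2, h]
  refine ⟨?_, by rw [Finset.card_image_of_injOn hinj, hcard]⟩
  intro v hv w hw huv
  simp only [Finset.coe_image, Set.mem_image, Finset.mem_coe] at hv hw
  obtain ⟨q, hq, rfl⟩ := hv
  obtain ⟨q', hq', rfl⟩ := hw
  have hne : q ≠ q' := fun h => huv (by rw [h])
  have hadj := hcl hq hq' hne
  cases hq1 : q.1 with
  | some l1 =>
    obtain ⟨l, x, y, h, h1, h2⟩ := hadj
    have h3 : (F l x).1 = some l1 := by rw [h1]; exact hq1
    have h4 : (F l0 (q.2 t1)).1 = some l1 := by rw [himg q hq]; exact hq1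
    obtain ⟨rfl, -, -⟩ := F_some hab h3
    obtain ⟨rfl, -, -⟩ := F_some hab h4
    rw [← h1, ← h2, F_at hab _ x ht1, F_at hab _ y ht1]
    exact h
  | none =>
    cases hq1' : q'.1 with
    | none =>
      obtain ⟨l, x, y, h, h1, h2⟩ := hadj
      refine induced hab h (l := l0) (l' := l) ?_ ?_ ?_ ?_
      · rw [himg q hq, h1]
      · rw [himg q' hq', h2]
      · rw [himg q hq]; exact hq1
      · rw [himg q' hq']; exact hq1'
    | some l1 =>
      obtain ⟨l, x, y, h, h1, h2⟩ := hadj
      have h3 : (F l y).1 = some l1 := by rw [h2]; exact hq1'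
      have h4 : (F l0 (q'.2 t1)).1 = some l1 := by rw [himg q' hq']; exact hq1'
      obtain ⟨rfl, -, -⟩ := F_some hab h3
      obtain ⟨rfl, -, -⟩ := F_some hab h4
      rw [← h1, ← h2, F_at hab _ x ht1, F_at hab _ y ht1]
      exact h

end Step

/-- One step of the partite construction. -/
theorem step {T : Type} {N : ℕ} (n : T → ℕ) (hn : ∀ u, 2 ≤ n u) (κ : Type) [Finite κ] [Nonempty κ]
    (P : Sys T N) (hP : ∀ u, (P.Γ u).CliqueFree (n u + 1)) (a b : Fin N) (hab : a ≠ b) (t₀ : T) :
    ∃ Q : Sys T N, (∀ u, (Q.Γ u).CliqueFree (n u + 1)) ∧ ∀ χ : Q.X → Q.X → κ,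
      ∃ f : Emb P Q, ∃ c : κ,
      ∀ x y, P.π x = a → P.π y = b → (P.Γ t₀).Adj x y → χ (f.f x) (f.f y) = c := by
  classical
  have := P.fin
  obtain ⟨ι, hι, hHJ⟩ := Line.exists_mono_in_high_dimension (E P a b t₀) κ
  have ht0 : ∃ t : ι, True := by
    obtain ⟨l, -⟩ := hHJ (fun _ => Classical.arbitrary κ)
    obtain ⟨i, -⟩ := l.proper
    exact ⟨i, trivial⟩
  obtain ⟨s0, -⟩ := ht0
  have : Finite (Option (Line (E P a b t₀) ι) × (ι → P.X)) := inferInstance
  refine ⟨⟨Option (Line (E P a b t₀) ι) × (ι → P.X), inferInstance, G' hab,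
    fun p => P.π (p.2 s0), ?_, G'_disj hab⟩, fun u => cliqueFree hab u (hn u) (hP u) s0, ?_⟩
  · rintro u p q ⟨l, x, y, h, rfl, rfl⟩
    simp only [π_F hab]
    exact P.part u x y h
  · intro χ
    obtain ⟨l, c, hc⟩ := hHJ (fun w => χ (none, fun t => (w t).1.1) (none, fun t => (w t).1.2))
    refine ⟨⟨F l, fun u x y h => ⟨l, x, y, h, rfl, rfl⟩, fun x => π_F hab l x s0⟩, c, ?_⟩
    intro x y hx hy h
    have := hc ⟨(x, y), hx, hy, h⟩
    rw [← this]
    simp only
    congr 1
    · rw [F_a l hx]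
      congr 1
      funext t
      rw [Line.coe_apply]
      cases l.idxFun t <;> simp
    · rw [F_b hab l hy]
      congr 1
      funext t
      rw [Line.coe_apply]
      cases l.idxFun t <;> simp

/-- Iterating over a list of pairs of parts and types. -/
theorem steps {T : Type} {N : ℕ} (n : T → ℕ) (hn : ∀ u, 2 ≤ n u) (κ : Type) [Finite κ]
    [Nonempty κ] (L : List ((Fin N × Fin N) × T)) (hL : ∀ p ∈ L, p.1.1 ≠ p.1.2) :
    ∀ (P : Sys T N), (∀ u, (P.Γ u).CliqueFree (n u + 1)) →
    ∃ Q : Sys T N, (∀ u, (Q.Γ u).CliqueFree (n u + 1)) ∧ ∀ χ : Q.X → Q.X → κ, ∃ f : Emb P Q,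
      ∀ p ∈ L, ∃ c : κ,
      ∀ x y, P.π x = p.1.1 → P.π y = p.1.2 → (P.Γ p.2).Adj x y → χ (f.f x) (f.f y) = c := by
  induction L with
  | nil =>
    intro P hP
    exact ⟨P, hP, fun χ => ⟨⟨id, fun u x y h => h, fun x => rfl⟩, by simp⟩⟩
  | cons p L ih =>
    intro P hP
    obtain ⟨Q1, hQ1, h1⟩ := step n hn κ P hP p.1.1 p.1.2 (hL p (by simp)) p.2
    obtain ⟨Q2, hQ2, h2⟩ := ih (fun p hp => hL p (by simp [hp])) Q1 hQ1
    refine ⟨Q2, hQ2, fun χ => ?_⟩
    obtain ⟨g, hg⟩ := h2 χ
    obtain ⟨f, c, hf⟩ := h1 (fun x y => χ (g.f x) (g.f y))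
    refine ⟨⟨fun x => g.f (f.f x), fun u x y h => g.adj _ _ _ (f.adj _ _ _ h),
      fun x => (g.part _).trans (f.part x)⟩, ?_⟩
    intro p' hp'
    rcases List.mem_cons.1 hp' with rfl | hp'
    · exact ⟨c, hf⟩
    · obtain ⟨c', hc'⟩ := hg p' hp'
      refine ⟨c', fun x y hx hy h => ?_⟩
      exact hc' _ _ ((f.part x).trans hx) ((f.part y).trans hy) (f.adj _ _ _ h)

end Pool.Agent.KS6_65.TF
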