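import Pool.Agent.KS6_65.TF.TypedFolkman

/-!
# The Nešetřil–Rödl theorem for edge-coloured graphs: the main theorem
-/

set_option autoImplicit false

namespace Pool.Agent.KS6_65.TF

/-- End-homogeneous sets. -/
lemma endHom (κ : Type) [Fintype κ] (m : ℕ) : ∃ M : ℕ, ∀ (N : ℕ) (c : Fin N → Fin N → κ)
    (S : Finset (Fin N)), M ≤ S.card → ∃ T ⊆ S, T.card = m ∧ ∃ d : Fin N → κ,
      ∀ i ∈ T, ∀ j ∈ T, i < j → c i j = d i := by
  classical
  induction m with
  | zero =>
    refine ⟨0, fun N c S _ => ⟨∅, by simp, rfl, ?_⟩⟩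
    by_cases h : Nonempty (Fin N)
    · obtain ⟨x⟩ := h
      exact ⟨fun _ => c x x, by simp⟩
    · exact ⟨fun x => absurd ⟨x⟩ h, by simp⟩
  | succ m ih =>
    obtain ⟨M, hM⟩ := ih
    refine ⟨Fintype.card κ * M + 1, fun N c S hS => ?_⟩
    have hne : S.Nonempty := by
      rw [← Finset.card_pos]; omega
    set x := S.min' hne with hx
    have hxS : x ∈ S := S.min'_mem hne
    have hcard : (S.erase x).card = S.card - 1 := Finset.card_erase_of_mem hxS
    by_cases hM0 : M = 0
    · obtain ⟨T, hT, hTc, d, hd⟩ := hM N c ∅ (by simp [hM0])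
      have hT0 : T = ∅ := Finset.subset_empty.1 hT
      have hm : m = 0 := by rw [← hTc, hT0]; rfl
      refine ⟨{x}, by simpa using hxS, by simp [hm], fun _ => c x x, ?_⟩
      intro i hi j hj hij
      simp only [Finset.mem_singleton] at hi hj
      subst hi
      exact absurd hij (by rw [hj]; exact lt_irrefl _)
    have hpig : ∃ y ∈ (Finset.univ : Finset κ),
        M ≤ ((S.erase x).filter (fun z => c x z = y)).card := by
      have : Nonempty κ := ⟨c x x⟩
      apply Finset.exists_le_card_fiber_of_mul_le_card_of_maps_to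
      · intro z _; exact Finset.mem_univ _
      · exact Finset.univ_nonempty
      · rw [Finset.card_univ, hcard]; omega
    obtain ⟨y, -, hy⟩ := hpig
    obtain ⟨T, hT, hTc, d, hd⟩ := hM N c _ hy
    have hxT : x ∉ T := fun h => by
      have := hT h
      simp at this
    refine ⟨insert x T, ?_, by rw [Finset.card_insert_of_notMem hxT, hTc],
      fun i => if i = x then y else d i, ?_⟩
    · intro z hz
      rcases Finset.mem_insert.1 hz with rfl | hz
      · exact hxS
      · exact Finset.mem_of_mem_erase (Finset.mem_filter.1 (hT hz)).1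
    · intro i hi j hj hij
      rcases Finset.mem_insert.1 hi with rfl | hi'
      · rcases Finset.mem_insert.1 hj with rfl | hj'
        · exact absurd hij (lt_irrefl _)
        · simp [(Finset.mem_filter.1 (hT hj')).2]
      · have hix : i ≠ x := fun h => hxT (h ▸ hi')
        rcases Finset.mem_insert.1 hj with rfl | hj'
        · have hiS : i ∈ S := Finset.mem_of_mem_erase (Finset.mem_filter.1 (hT hi')).1
          exact absurd hij (not_lt.2 (S.min'_le i hiS))
        · simp only [hix, if_false]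
          exact hd i hi' j hj' hij

/-- Ramsey's theorem for pairs. -/
lemma ramseyPairs (κ : Type) [Finite κ] (n : ℕ) : ∃ N : ℕ, ∀ (c : Fin N → Fin N → κ),
    ∃ S : Fin n ↪o Fin N, ∃ y : κ ⊕ Unit, ∀ i j, i < j → (Sum.inl (c (S i) (S j)) : κ ⊕ Unit) = y := by
  classical
  have := Fintype.ofFinite κ
  obtain ⟨M, hM⟩ := endHom κ (Fintype.card κ * n + 1)
  refine ⟨M, fun c => ?_⟩
  obtain ⟨T, -, hTc, d, hd⟩ := hM M c Finset.univ (by simp)
  have hTne : T.Nonempty := by rw [← Finset.card_pos]; omega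
  obtain ⟨x0, hx0⟩ := hTne
  have : Nonempty κ := ⟨c x0 x0⟩
  have hpig : ∃ y ∈ (Finset.univ : Finset κ), n ≤ (T.filter (fun z => d z = y)).card := by
    apply Finset.exists_le_card_fiber_of_mul_le_card_of_maps_to
    · intro z _; exact Finset.mem_univ _
    · exact Finset.univ_nonempty
    · rw [Finset.card_univ, hTc]; omega
  obtain ⟨y, -, hy⟩ := hpig
  obtain ⟨U, hU, hUc⟩ := Finset.exists_subset_card_eq hy
  refine ⟨U.orderEmbOfFin hUc, Sum.inl y, fun i j hij => ?_⟩
  congr 1
  have hi := hU (U.orderEmbOfFin_mem hUc i)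
  have hj := hU (U.orderEmbOfFin_mem hUc j)
  rw [Finset.mem_filter] at hi hj
  rw [hd _ hi.1 _ hj.1 ((U.orderEmbOfFin hUc).lt_iff_lt.2 hij), hi.2]


/-- The starting system: disjoint copies of `A`, one over each `n`-set of parts. -/
def P0 {T : Type} (n N : ℕ) (A : T → SimpleGraph (Fin n))
    (hA : ∀ u v x y, (A u).Adj x y → (A v).Adj x y → u = v) : Sys T N where
  X := (Fin n ↪o Fin N) × Fin n
  fin := by
    have : Finite (Fin n ↪o Fin N) := Finite.of_injective (fun f => (f : Fin n → Fin N))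
      (fun f g h => by ext x; exact congrArg Fin.val (congrFun h x))
    infer_instance
  Γ u :=
    { Adj := fun p q => p.1 = q.1 ∧ (A u).Adj p.2 q.2
      symm := ⟨fun p q h => ⟨h.1.symm, h.2.symm⟩⟩
      loopless := ⟨fun p h => h.2.ne rfl⟩ }
  π p := p.1 p.2
  part := by
    rintro u ⟨S, i⟩ ⟨T, j⟩ ⟨h1, h2⟩ h
    simp only at h1 h2 h
    subst h1
    exact h2.ne (S.injective h)
  disj := by
    rintro u v ⟨S, i⟩ ⟨T, j⟩ ⟨_, h2⟩ ⟨_, h3⟩
    exact hA u v i j h2 h3

lemma P0_cliqueFree {T : Type} (n N : ℕ) (A : T → SimpleGraph (Fin n))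
    (hA : ∀ u v x y, (A u).Adj x y → (A v).Adj x y → u = v) (u : T) (k : ℕ)
    (hfree : (A u).CliqueFree k) : ((P0 n N A hA).Γ u).CliqueFree k := by
  classical
  intro s hs
  have hcl := hs.isClique
  have hcard := hs.card_eq
  let snd0 : (P0 n N A hA).X → Fin n := fun p => Prod.snd (α := Fin n ↪o Fin N) p
  have hinj : Set.InjOn snd0 (s : Set (P0 n N A hA).X) := by
    intro p hp q hq h
    by_contra hne
    exact (hcl hp hq hne).2.ne h
  apply hfree (s.image snd0)
  refine ⟨?_, by rw [Finset.card_image_of_injOn hinj, hcard]⟩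
  intro v hv w hw hvw
  simp only [Finset.coe_image, Set.mem_image, Finset.mem_coe] at hv hw
  obtain ⟨p, hp, rfl⟩ := hv
  obtain ⟨q, hq, rfl⟩ := hw
  have hne : p ≠ q := fun h => hvw (by rw [h])
  exact (hcl hp hq hne).2

/-- **Nešetřil–Rödl for edge-coloured graphs**, ordered version. -/
theorem typedFolkman_fin {T : Type} [Finite T] (k : T → ℕ) (hk : ∀ u, 2 ≤ k u) (κ : Type)
    [Finite κ] [Nonempty κ] (n : ℕ) (A : T → SimpleGraph (Fin n))
    (hA : ∀ u v x y, (A u).Adj x y → (A v).Adj x y → u = v)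
    (hfree : ∀ u, (A u).CliqueFree (k u + 1)) :
    ∃ (X : Type) (_ : Finite X) (Γ : T → SimpleGraph X),
      (∀ u v x y, (Γ u).Adj x y → (Γ v).Adj x y → u = v) ∧
      (∀ u, (Γ u).CliqueFree (k u + 1)) ∧
      ∀ χ : X → X → κ, ∃ (e : Fin n → X) (c : T → κ),
        ∀ i j, i < j → ∀ u, (A u).Adj i j → (Γ u).Adj (e i) (e j) ∧ χ (e i) (e j) = c u := by
  classical
  have := Fintype.ofFinite T
  obtain ⟨N, hN⟩ := ramseyPairs (T → κ) n
  obtain ⟨Q, hQ, h⟩ := steps k hk κ
    ((Finset.univ.filter (fun p : (Fin N × Fin N) × T => p.1.1 ≠ p.1.2)).toList) (by simp)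
    (P0 n N A hA) (fun u => P0_cliqueFree n N A hA u _ (hfree u))
  refine ⟨Q.X, Q.fin, Q.Γ, Q.disj, hQ, fun χ => ?_⟩
  obtain ⟨f, hf⟩ := h χ
  have hf' : ∀ (a b : Fin N) (u : T), ∃ c : κ, a ≠ b → ∀ x y, (P0 n N A hA).π x = a →
      (P0 n N A hA).π y = b → ((P0 n N A hA).Γ u).Adj x y → χ (f.f x) (f.f y) = c := by
    intro a b u
    by_cases hab : a = b
    · exact ⟨Classical.arbitrary κ, fun h => absurd hab h⟩
    · obtain ⟨c, hc⟩ := hf ((a, b), u) (by simpa using hab)
      exact ⟨c, fun _ => hc⟩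
  choose c hc using hf'
  obtain ⟨S, y, hS⟩ := hN (fun a b u => c a b u)
  cases y with
  | inl y =>
    refine ⟨fun i => f.f (S, i), y, fun i j hij u hadj => ?_⟩
    have hadj' : ((P0 n N A hA).Γ u).Adj (S, i) (S, j) := ⟨rfl, hadj⟩
    refine ⟨f.adj _ _ _ hadj', ?_⟩
    have h2 := hS i j hij
    have h3 : (fun u => c (S i) (S j) u) = y := Sum.inl.inj h2
    rw [← h3]
    exact hc (S i) (S j) u (fun h => hij.ne (S.injective h)) (S, i) (S, j) rfl rfl hadj'
  | inr y =>
    refine ⟨fun i => f.f (S, i), fun _ => Classical.arbitrary κ, fun i j hij u hadj => ?_⟩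
    have h2 := hS i j hij
    simp at h2

/-- **Nešetřil–Rödl for edge-coloured graphs** without monochromatic cliques. For every finite
structure with disjoint graphs `A u`, `A u` without clique on `k u + 1` vertices (`k u ≥ 2`), there
is a finite structure of the same kind such that every colouring of the pairs has a copy of `A` in
which the colour of an edge depends only on its type. -/
theorem typedFolkman {T : Type} [Finite T] (k : T → ℕ) (hk : ∀ u, 2 ≤ k u) (κ : Type)
    [Finite κ] [Nonempty κ] (V : Type) [Finite V] (A : T → SimpleGraph V)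
    (hA : ∀ u v x y, (A u).Adj x y → (A v).Adj x y → u = v)
    (hfree : ∀ u, (A u).CliqueFree (k u + 1)) :
    ∃ (n : ℕ) (Γ : T → SimpleGraph (Fin n)),
      (∀ u v x y, (Γ u).Adj x y → (Γ v).Adj x y → u = v) ∧
      (∀ u, (Γ u).CliqueFree (k u + 1)) ∧
      ∀ χ : Sym2 (Fin n) → κ, ∃ (e : V → Fin n) (c : T → κ),
        ∀ x y u, (A u).Adj x y → (Γ u).Adj (e x) (e y) ∧ χ s(e x, e y) = c u := by
  classical
  have := Fintype.ofFinite V
  let g : V ≃ Fin (Fintype.card V) := Fintype.equivFin V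
  obtain ⟨X, hX, Γ, h1, h2, h3⟩ := typedFolkman_fin k hk κ (Fintype.card V)
    (fun u => (A u).comap g.symm) (fun u v x y hu hv => hA u v _ _ hu hv)
    (fun u => (hfree u).comap (SimpleGraph.Embedding.comap g.symm.toEmbedding (A u)).isContained)
  have := Fintype.ofFinite X
  let f : X ≃ Fin (Fintype.card X) := Fintype.equivFin X
  refine ⟨Fintype.card X, fun u => (Γ u).comap f.symm, fun u v x y hu hv => h1 u v _ _ hu hv,
    fun u => (h2 u).comap (SimpleGraph.Embedding.comap f.symm.toEmbedding (Γ u)).isContained, fun χ => ?_⟩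
  obtain ⟨e, c, hc⟩ := h3 (fun x y => χ s(f x, f y))
  refine ⟨fun x => f (e (g x)), c, fun x y u hxy => ?_⟩
  have hne : g x ≠ g y := fun h => hxy.ne (g.injective h)
  rcases lt_or_gt_of_ne hne with hlt | hlt
  · obtain ⟨h4, h5⟩ := hc _ _ hlt u (by simpa using hxy)
    refine ⟨?_, h5⟩
    simpa using h4
  · obtain ⟨h4, h5⟩ := hc _ _ hlt u (by simpa using hxy.symm)
    refine ⟨?_, ?_⟩
    · simpa using h4.symm
    · rw [Sym2.eq_swap]
      exact h5

end Pool.Agent.KS6_65.TF
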